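import Mathlib

set_option autoImplicit false

namespace Pool.Agent.Results.MP_6b7d8e_lc.NoExactRealisation

open Nat.Partrec (Code)
open Nat.Partrec.Code

/-- A conditional algorithm: a computable function of a program `p` and a condition `y`, with
values in strings, defined on part of its arguments. -/
def CondAlg (U : List Bool → List Bool →. List Bool) : Prop :=
  Partrec fun t : List Bool × List Bool => U t.1 t.2

/-- `U` has no two comparable distinct programs in its domain, for each condition. -/
def PrefixFree (U : List Bool → List Bool →. List Bool) : Prop :=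
  ∀ y p p' : List Bool, p <+: p' → p ≠ p' → ¬ ((U p y).Dom ∧ (U p' y).Dom)

/-- `U p y = x` implies `U p' y = x` for all extensions `p'` of `p`. -/
def PrefixStable (U : List Bool → List Bool →. List Bool) : Prop :=
  ∀ y p p' x : List Bool, p <+: p' → x ∈ U p y → x ∈ U p' y

/-- The complexity function of `U` is `K`: for all `x`, `y` the value `K x y` is the least
length of a program `p` with `U p y = x`. -/
def Realises (U : List Bool → List Bool →. List Bool) (K : List Bool → List Bool → ℤ) : Prop :=
  ∀ x y : List Bool, IsLeast {k : ℤ | ∃ p : List Bool, x ∈ U p y ∧ (p.length : ℤ) = k} (K x y)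

/-- Admissible functions: integer-valued, upper semicomputable (limits of uniformly computable
sequences that are non-increasing), with `∑ 2 ^ (-K x y) ≤ 1` for every condition `y`. -/
structure Admissible (K : List Bool → List Bool → ℤ) : Prop where
  upper : ∃ Kn : ℕ → List Bool → List Bool → ℤ,
    Computable (fun t : ℕ × List Bool × List Bool => Kn t.1 t.2.1 t.2.2) ∧
    (∀ n x y, Kn (n + 1) x y ≤ Kn n x y) ∧
    ∀ x y, ∃ N, ∀ n, N ≤ n → Kn n x y = K x y
  kraft : ∀ (y : List Bool) (S : Finset (List Bool)), ∑ x ∈ S, (2 : ℝ) ^ (-K x y) ≤ 1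

/-! ### The construction -/

/-- The first four strings. -/
def xs : Fin 4 → List Bool := ![[], [false], [false, false], [true]]

theorem encode_xs (i : Fin 4) : Encodable.encode (xs i) = i.1 := by
  fin_cases i <;> rfl

/-- At stage `n` the program `p` is seen to produce the string with code `i`. -/
def seen (n : ℕ) (y p : List Bool) (i : ℕ) : Bool :=
  decide (evaln n (Denumerable.ofNat Code y.length) (Encodable.encode (p, y)) = some i)

/-- Some program of length three with first bit `h` is seen to produce string `i`. -/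
def FF (n : ℕ) (y : List Bool) (i : ℕ) (h : Bool) : Bool :=
  (seen n y [h, false, false] i || seen n y [h, false, true] i) ||
    (seen n y [h, true, false] i || seen n y [h, true, true] i)

/-- Both halves contain programs for strings `i` or `j`. -/
def condA (n : ℕ) (y : List Bool) (i j : ℕ) : Bool :=
  (FF n y i false || FF n y j false) && (FF n y i true || FF n y j true)

/-- One half contains programs for all three strings. -/
def condB (n : ℕ) (y : List Bool) : Bool :=
  ((FF n y 0 false && FF n y 1 false) && FF n y 2 false) ||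
    ((FF n y 0 true && FF n y 1 true) && FF n y 2 true)

/-- The trigger. -/
def trig (n : ℕ) (y : List Bool) : ℕ :=
  bif condA n y 1 2 then 1 else bif condA n y 0 2 then 2 else bif condA n y 0 1 then 3 else
    bif condB n y then 4 else 0

/-- The phase at stage `n`. -/
def phase (n : ℕ) (y : List Bool) : ℕ :=
  Nat.rec 0 (fun m ih => bif ih == 0 then trig m y else ih) n

/-- The value of the function in each phase. -/
def val (ph e : ℕ) : ℕ :=
  bif decide (2 < e) then e + 1 else bif ph == 4 then e + 1 else bif ph == e + 1 then 1 else 3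

theorem primrec_seen (p : List Bool) (i : ℕ) :
    Primrec fun t : ℕ × List Bool => seen t.1 t.2 p i := by
  unfold seen
  have h1 : Primrec fun t : ℕ × List Bool => t.2.length := Primrec.list_length.comp Primrec.snd
  have h2 : Primrec fun t : ℕ × List Bool => Denumerable.ofNat Code t.2.length :=
    (Primrec.ofNat Code).comp h1
  have h3 : Primrec fun t : ℕ × List Bool => (p, t.2) := (Primrec.const p).pair Primrec.snd
  have h4 : Primrec fun t : ℕ × List Bool => Encodable.encode (p, t.2) := Primrec.encode.comp h3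
  have h5 : Primrec fun t : ℕ × List Bool =>
      evaln t.1 (Denumerable.ofNat Code t.2.length) (Encodable.encode (p, t.2)) :=
    Nat.Partrec.Code.primrec_evaln.comp ((Primrec.fst.pair h2).pair h4)
  exact (PrimrecRel.comp Primrec.eq h5 (Primrec.const (some i))).decide

theorem primrec_FF (i : ℕ) (h : Bool) : Primrec fun t : ℕ × List Bool => FF t.1 t.2 i h := by
  unfold FF
  exact Primrec.or.comp (Primrec.or.comp (primrec_seen _ _) (primrec_seen _ _))
    (Primrec.or.comp (primrec_seen _ _) (primrec_seen _ _))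

theorem primrec_condA (i j : ℕ) : Primrec fun t : ℕ × List Bool => condA t.1 t.2 i j := by
  unfold condA
  exact Primrec.and.comp (Primrec.or.comp (primrec_FF _ _) (primrec_FF _ _))
    (Primrec.or.comp (primrec_FF _ _) (primrec_FF _ _))

theorem primrec_condB : Primrec fun t : ℕ × List Bool => condB t.1 t.2 := by
  unfold condB
  exact Primrec.or.comp
    (Primrec.and.comp (Primrec.and.comp (primrec_FF _ _) (primrec_FF _ _)) (primrec_FF _ _))
    (Primrec.and.comp (Primrec.and.comp (primrec_FF _ _) (primrec_FF _ _)) (primrec_FF _ _))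

theorem primrec_trig : Primrec fun t : ℕ × List Bool => trig t.1 t.2 := by
  unfold trig
  exact Primrec.cond (primrec_condA _ _) (Primrec.const _)
    (Primrec.cond (primrec_condA _ _) (Primrec.const _)
      (Primrec.cond (primrec_condA _ _) (Primrec.const _)
        (Primrec.cond primrec_condB (Primrec.const _) (Primrec.const _))))

theorem primrec_phase : Primrec fun t : ℕ × List Bool => phase t.1 t.2 := by
  unfold phase
  refine Primrec.nat_rec' (f := fun t : ℕ × List Bool => t.1) (g := fun _ => 0)
    (h := fun (t : ℕ × List Bool) (q : ℕ × ℕ) => bif q.2 == 0 then trig q.1 t.2 else q.2)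
    Primrec.fst (Primrec.const 0) ?_
  refine Primrec.cond ?_ ?_ ?_
  · exact Primrec.beq.comp (Primrec.snd.comp Primrec.snd) (Primrec.const 0)
  · exact primrec_trig.comp ((Primrec.fst.comp Primrec.snd).pair
      (Primrec.snd.comp Primrec.fst))
  · exact Primrec.snd.comp Primrec.snd

theorem primrec_val : Primrec fun t : ℕ × ℕ => val t.1 t.2 := by
  unfold val
  refine Primrec.cond ?_ (Primrec.succ.comp Primrec.snd) ?_
  · exact (PrimrecRel.comp Primrec.nat_lt (Primrec.const 2) Primrec.snd).decide
  · refine Primrec.cond (Primrec.beq.comp Primrec.fst (Primrec.const 4))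
      (Primrec.succ.comp Primrec.snd) ?_
    exact Primrec.cond (Primrec.beq.comp Primrec.fst (Primrec.succ.comp Primrec.snd))
      (Primrec.const 1) (Primrec.const 3)

theorem primrec_intCast : Primrec fun n : ℕ => (n : ℤ) := by
  rw [← Primrec.encode_iff]
  have h : (fun n : ℕ => Encodable.encode (n : ℤ)) = fun n => 2 * n := by
    funext n
    rfl
  rw [h]
  exact Primrec.nat_mul.comp (Primrec.const 2) Primrec.id

/-- The approximations. -/
def Kn (n : ℕ) (x y : List Bool) : ℤ := (val (phase n y) (Encodable.encode x) : ℕ)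

theorem computable_Kn : Computable fun t : ℕ × List Bool × List Bool => Kn t.1 t.2.1 t.2.2 := by
  unfold Kn
  refine Primrec.to_comp ?_
  exact primrec_intCast.comp (primrec_val.comp
    ((primrec_phase.comp (Primrec.fst.pair (Primrec.snd.comp Primrec.snd))).pair
      (Primrec.encode.comp (Primrec.fst.comp Primrec.snd))))

theorem phase_succ (n : ℕ) (y : List Bool) :
    phase (n + 1) y = bif phase n y == 0 then trig n y else phase n y := rfl

theorem phase_stable {n : ℕ} {y : List Bool} (h : phase n y ≠ 0) :
    ∀ m, n ≤ m → phase m y = phase n y := by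
  intro m hm
  induction m, hm using Nat.le_induction with
  | base => rfl
  | succ m _ ih =>
    rw [phase_succ, ih]
    have : (phase n y == 0) = false := by simpa using h
    rw [this]
    rfl

theorem phase_le {n : ℕ} {y : List Bool} (h : phase n y = 0) :
    ∀ m, m ≤ n → phase m y = 0 := by
  intro m hm
  by_contra hne
  exact hne (by rw [← phase_stable hne n hm, h])

/-- The final phase. -/
noncomputable def phInf (y : List Bool) : ℕ :=
  open Classical in if h : ∃ n, phase n y ≠ 0 then phase (Nat.find h) y else 0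

theorem phInf_spec (y : List Bool) : ∃ N, ∀ n, N ≤ n → phase n y = phInf y := by
  classical
  unfold phInf
  by_cases h : ∃ n, phase n y ≠ 0
  · refine ⟨Nat.find h, fun n hn => ?_⟩
    rw [dif_pos h]
    convert phase_stable (Nat.find_spec h) n hn
  · refine ⟨0, fun n _ => ?_⟩
    rw [dif_neg h]
    push Not at h
    exact h n

/-- The function. -/
noncomputable def KK (x y : List Bool) : ℤ := (val (phInf y) (Encodable.encode x) : ℕ)

theorem val_le_zero (ph e : ℕ) : val ph e ≤ val 0 e := by
  unfold val
  by_cases h : 2 < e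
  · simp [h]
  · simp only [h, decide_false, cond_false]
    have h0 : ((0 : ℕ) == 4) = false := rfl
    have h1 : ((0 : ℕ) == e + 1) = false := by simp
    rw [h0, h1]
    simp only [cond_false]
    cases hc : (ph == 4)
    · simp only [cond_false]
      cases hd : (ph == e + 1)
      · simp
      · simp
    · simp only [cond_true]
      omega

theorem Kn_anti (n : ℕ) (x y : List Bool) : Kn (n + 1) x y ≤ Kn n x y := by
  unfold Kn
  by_cases h : phase n y = 0
  · rw [h]
    exact_mod_cast val_le_zero _ _
  · rw [phase_stable h (n + 1) (Nat.le_succ n)]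

theorem sum_val (ph : ℕ) (hph : ph ≤ 4) (N : ℕ) :
    ∑ e ∈ Finset.range (N + 3), (2 : ℝ) ^ (-((val ph e : ℕ) : ℤ)) ≤ 1 := by
  have key : ∀ N, ∑ e ∈ Finset.range (N + 3), (2 : ℝ) ^ (-((val ph e : ℕ) : ℤ)) ≤
      1 - (1 / 8) * (1 / 2) ^ N := by
    intro N
    induction N with
    | zero =>
      rw [Finset.sum_range_succ, Finset.sum_range_succ, Finset.sum_range_succ]
      have h : (val ph 0 = 3 ∧ val ph 1 = 3 ∧ val ph 2 = 3) ∨
          (val ph 0 = 1 ∧ val ph 1 = 3 ∧ val ph 2 = 3) ∨
          (val ph 0 = 3 ∧ val ph 1 = 1 ∧ val ph 2 = 3) ∨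
          (val ph 0 = 3 ∧ val ph 1 = 3 ∧ val ph 2 = 1) ∨
          (val ph 0 = 1 ∧ val ph 1 = 2 ∧ val ph 2 = 3) := by
        interval_cases ph <;> decide
      rcases h with ⟨a, b, c⟩ | ⟨a, b, c⟩ | ⟨a, b, c⟩ | ⟨a, b, c⟩ | ⟨a, b, c⟩ <;>
        rw [Finset.sum_range_zero, a, b, c] <;> norm_num [zpow_neg]
    | succ N ih =>
      rw [show N + 1 + 3 = (N + 3) + 1 by ring, Finset.sum_range_succ]
      have h1 : val ph (N + 3) = N + 4 := by
        unfold val
        have : decide (2 < N + 3) = true := by simp
        rw [this]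
        rfl
      rw [h1]
      have h2 : (2 : ℝ) ^ (-((N + 4 : ℕ) : ℤ)) = (1 / 16) * (1 / 2) ^ N := by
        have h3 : ((1 : ℝ) / 2) ^ N = ((2 : ℝ) ^ N)⁻¹ := by rw [one_div, inv_pow]
        rw [h3, zpow_neg, zpow_natCast, pow_add, mul_inv]
        norm_num
        ring
      rw [h2, pow_succ]
      linarith
  have := key N
  have h3 : (0 : ℝ) < (1 / 8) * (1 / 2) ^ N := by positivity
  linarith

theorem trig_le (n : ℕ) (y : List Bool) : trig n y ≤ 4 := by
  unfold trig
  cases condA n y 1 2 <;> cases condA n y 0 2 <;> cases condA n y 0 1 <;> cases condB n y <;>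
    simp

theorem phase_le_four (n : ℕ) (y : List Bool) : phase n y ≤ 4 := by
  induction n with
  | zero => exact Nat.zero_le _
  | succ n ih =>
    rw [phase_succ]
    cases phase n y == 0
    · exact ih
    · exact trig_le n y

theorem phInf_le_four (y : List Bool) : phInf y ≤ 4 := by
  obtain ⟨N, hN⟩ := phInf_spec y
  rw [← hN N (le_refl _)]
  exact phase_le_four N y

theorem admissible : Admissible KK where
  upper := ⟨Kn, computable_Kn, Kn_anti, fun x y => by
    obtain ⟨N, hN⟩ := phInf_spec y
    exact ⟨N, fun n hn => by unfold Kn KK; rw [hN n hn]⟩⟩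
  kraft := by
    intro y S
    have h1 : ∑ x ∈ S, (2 : ℝ) ^ (-KK x y) =
        ∑ e ∈ S.map ⟨Encodable.encode, Encodable.encode_injective⟩,
          (2 : ℝ) ^ (-((val (phInf y) e : ℕ) : ℤ)) := by
      rw [Finset.sum_map]
      rfl
    rw [h1]
    obtain ⟨N, hN⟩ : ∃ N, S.map ⟨Encodable.encode, Encodable.encode_injective⟩ ⊆
        Finset.range (N + 3) := by
      refine ⟨(S.map ⟨Encodable.encode, Encodable.encode_injective⟩).sup id, ?_⟩
      intro e he
      rw [Finset.mem_range]
      have := Finset.le_sup (f := id) he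
      simp only [id_eq] at this
      omega
    refine le_trans (Finset.sum_le_sum_of_subset_of_nonneg hN fun e _ _ => ?_)
      (sum_val _ (phInf_le_four y) N)
    positivity

/-- Comparable programs give the same output. -/
def Compat (U : List Bool → List Bool →. List Bool) (y : List Bool) : Prop :=
  ∀ p p' x x' : List Bool, p <+: p' → x ∈ U p y → x' ∈ U p' y → x = x'

theorem compat_of (U : List Bool → List Bool →. List Bool) (h : PrefixFree U ∨ PrefixStable U)
    (y : List Bool) : Compat U y := by
  intro p p' x x' hpp hx hx'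
  rcases h with h | h
  · by_cases he : p = p'
    · subst he
      exact Part.mem_unique hx hx'
    · exact absurd ⟨Part.dom_iff_mem.2 ⟨x, hx⟩, Part.dom_iff_mem.2 ⟨x', hx'⟩⟩
        (h y p p' hpp he)
  · exact Part.mem_unique (h y p p' x hpp hx) hx'

/-- What it means for a program of length three to be found. -/
theorem FF_sound {U : List Bool → List Bool →. List Bool} {c : Code} {y : List Bool}
    (hy : y.length = Encodable.encode c)
    (hc : ∀ p, eval c (Encodable.encode (p, y)) = (U p y).map Encodable.encode)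
    {n : ℕ} {i : Fin 4} {h : Bool} (hF : FF n y i.1 h = true) :
    ∃ b b' : Bool, xs i ∈ U [h, b, b'] y := by
  have hs : ∀ p, seen n y p i.1 = true → xs i ∈ U p y := by
    intro p hp
    unfold seen at hp
    rw [hy, Denumerable.ofNat_encode] at hp
    have h1 : evaln n c (Encodable.encode (p, y)) = some i.1 := of_decide_eq_true hp
    have h2 := evaln_sound h1
    rw [hc p] at h2
    obtain ⟨x, hx, hxe⟩ := (Part.mem_map_iff _).1 h2
    have : x = xs i := Encodable.encode_injective (by rw [hxe, encode_xs])
    rw [← this]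
    exact hx
  unfold FF at hF
  rw [Bool.or_eq_true, Bool.or_eq_true, Bool.or_eq_true] at hF
  rcases hF with (h1 | h1) | (h1 | h1)
  · exact ⟨_, _, hs _ h1⟩
  · exact ⟨_, _, hs _ h1⟩
  · exact ⟨_, _, hs _ h1⟩
  · exact ⟨_, _, hs _ h1⟩

theorem FF_complete {U : List Bool → List Bool →. List Bool} {c : Code} {y : List Bool}
    (hy : y.length = Encodable.encode c)
    (hc : ∀ p, eval c (Encodable.encode (p, y)) = (U p y).map Encodable.encode)
    {i : Fin 4} {h b b' : Bool} (hx : xs i ∈ U [h, b, b'] y) :
    ∃ N, ∀ n, N ≤ n → FF n y i.1 h = true := by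
  have h1 : i.1 ∈ eval c (Encodable.encode ([h, b, b'], y)) := by
    rw [hc, ← encode_xs i]
    exact Part.mem_map _ hx
  obtain ⟨N, hN⟩ := evaln_complete.1 h1
  refine ⟨N, fun n hn => ?_⟩
  have h2 : seen n y [h, b, b'] i.1 = true := by
    unfold seen
    rw [hy, Denumerable.ofNat_encode]
    have := evaln_mono hn hN
    rw [Option.mem_def] at this
    exact decide_eq_true this
  unfold FF
  cases b <;> cases b' <;> simp [h2]

theorem length_three {p : List Bool} (h : p.length = 3) : ∃ a b c, p = [a, b, c] := by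
  match p, h with
  | [a, b, c], _ => exact ⟨a, b, c, rfl⟩

theorem length_four {p : List Bool} (h : p.length = 4) : ∃ a b c d, p = [a, b, c, d] := by
  match p, h with
  | [a, b, c, d], _ => exact ⟨a, b, c, d, rfl⟩

theorem length_two {p : List Bool} (h : p.length = 2) : ∃ a b, p = [a, b] := by
  match p, h with
  | [a, b], _ => exact ⟨a, b, rfl⟩

theorem length_one {p : List Bool} (h : p.length = 1) : ∃ a, p = [a] := by
  match p, h with
  | [a], _ => exact ⟨a, rfl⟩

theorem xs_inj {i j : Fin 4} (h : xs i = xs j) : i = j := by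
  apply Fin.ext
  rw [← encode_xs i, ← encode_xs j, h]

theorem KK_xs (i : Fin 4) (y : List Bool) : KK (xs i) y = (val (phInf y) i.1 : ℕ) := by
  unfold KK
  rw [encode_xs]

/-- If both halves hold programs for strings other than `a`, then `a` has no program of length
one. -/
theorem no_one {U : List Bool → List Bool →. List Bool} {y : List Bool} (hU : Compat U y)
    {a : Fin 4} (h : ∀ b : Bool, ∃ j : Fin 4, j ≠ a ∧ ∃ c d, xs j ∈ U [b, c, d] y)
    (hr : ∃ p, xs a ∈ U p y ∧ (p.length : ℤ) = 1) : False := by
  obtain ⟨p, hp, hl⟩ := hr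
  obtain ⟨b, rfl⟩ := length_one (by exact_mod_cast hl)
  obtain ⟨j, hj, c, d, hx⟩ := h b
  exact hj (xs_inj (hU [b] [b, c, d] _ _ ⟨[c, d], rfl⟩ hp hx)).symm

/-- The three strings in one half. -/
theorem no_B {U : List Bool → List Bool →. List Bool} {y : List Bool} (hU : Compat U y)
    {h : Bool} (h0 : ∃ c d, xs 0 ∈ U [h, c, d] y) (h1 : ∃ c d, xs 1 ∈ U [h, c, d] y)
    (h2 : ∃ c d, xs 2 ∈ U [h, c, d] y)
    (r0 : ∃ p, xs 0 ∈ U p y ∧ (p.length : ℤ) = 1)
    (r1 : ∃ p, xs 1 ∈ U p y ∧ (p.length : ℤ) = 2)
    (r3 : ∃ p, xs 3 ∈ U p y ∧ (p.length : ℤ) = 4) : False := by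
  obtain ⟨c0, d0, h0⟩ := h0
  obtain ⟨c1, d1, h1⟩ := h1
  obtain ⟨c2, d2, h2⟩ := h2
  obtain ⟨q0, r0, l0⟩ := r0
  obtain ⟨q1, r1, l1⟩ := r1
  obtain ⟨q3, r3, l3⟩ := r3
  obtain ⟨a0, rfl⟩ := length_one (by exact_mod_cast l0)
  obtain ⟨a1, b1, rfl⟩ := length_two (by exact_mod_cast l1)
  obtain ⟨a3, b3, e3, f3, rfl⟩ := length_four (by exact_mod_cast l3)
  have ne : ∀ {i j : Fin 4}, i ≠ j → xs i ≠ xs j := fun hij h => hij (xs_inj h)
  have k0 : a0 ≠ h := by
    rintro rfl
    exact ne (by decide : (0 : Fin 4) ≠ 1) (hU [a0] [a0, c1, d1] _ _ ⟨[c1, d1], rfl⟩ r0 h1)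
  have k1 : a1 ≠ a0 := by
    rintro rfl
    exact ne (by decide : (0 : Fin 4) ≠ 1) (hU [a1] [a1, b1] _ _ ⟨[b1], rfl⟩ r0 r1)
  have k3 : a3 ≠ a0 := by
    rintro rfl
    exact ne (by decide : (0 : Fin 4) ≠ 3) (hU [a3] [a3, b3, e3, f3] _ _ ⟨[b3, e3, f3], rfl⟩
      r0 r3)
  have e1 : a1 = h := by
    revert k0 k1
    cases a0 <;> cases a1 <;> cases h <;> simp
  have e3' : a3 = h := by
    revert k0 k3
    cases a0 <;> cases a3 <;> cases h <;> simp
  subst e1
  subst e3'
  have m0 : c0 ≠ b1 := by
    rintro rfl
    exact ne (by decide : (1 : Fin 4) ≠ 0) (hU [a3, c0] [a3, c0, d0] _ _ ⟨[d0], rfl⟩ r1 h0)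
  have m2 : c2 ≠ b1 := by
    rintro rfl
    exact ne (by decide : (1 : Fin 4) ≠ 2) (hU [a3, c2] [a3, c2, d2] _ _ ⟨[d2], rfl⟩ r1 h2)
  have m3 : b3 ≠ b1 := by
    rintro rfl
    exact ne (by decide : (1 : Fin 4) ≠ 3) (hU [a3, b3] [a3, b3, e3, f3] _ _ ⟨[e3, f3], rfl⟩
      r1 r3)
  have e0 : c0 = b3 := by
    revert m0 m3
    cases c0 <;> cases b3 <;> cases b1 <;> simp
  have e2 : c2 = b3 := by
    revert m2 m3
    cases c2 <;> cases b3 <;> cases b1 <;> simp
  subst e0
  subst e2
  have n02 : d0 ≠ d2 := by
    rintro rfl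
    exact ne (by decide : (0 : Fin 4) ≠ 2) (hU _ _ _ _ (List.prefix_refl _) h0 h2)
  have n0 : e3 ≠ d0 := by
    rintro rfl
    exact ne (by decide : (0 : Fin 4) ≠ 3) (hU _ _ _ _ ⟨[f3], rfl⟩ h0 r3)
  have n2 : e3 ≠ d2 := by
    rintro rfl
    exact ne (by decide : (2 : Fin 4) ≠ 3) (hU _ _ _ _ ⟨[f3], rfl⟩ h2 r3)
  revert n02 n0 n2
  cases d0 <;> cases d2 <;> cases e3 <;> simp

/-- Some admissible function is not exactly realised by any prefix-free conditional algorithm,
nor by any prefix-stable one. -/
theorem result : ∃ K : List Bool → List Bool → ℤ, Admissible K ∧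
    (∀ U, CondAlg U → PrefixFree U → ¬ Realises U K) ∧
    (∀ U, CondAlg U → PrefixStable U → ¬ Realises U K) := by
  suffices h : ∀ U, CondAlg U → (PrefixFree U ∨ PrefixStable U) → ¬ Realises U KK from
    ⟨KK, admissible, fun U h1 h2 => h U h1 (Or.inl h2), fun U h1 h2 => h U h1 (Or.inr h2)⟩
  intro U hU hpf hR
  obtain ⟨c, hc0⟩ := Nat.Partrec.Code.exists_code.1 hU
  set y : List Bool := List.replicate (Encodable.encode c) false with hy0
  have hy : y.length = Encodable.encode c := List.length_replicate
  have hc : ∀ p, eval c (Encodable.encode (p, y)) = (U p y).map Encodable.encode := by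
    intro p
    rw [hc0]
    simp
  have hcompat := compat_of U hpf y
  have hex : ∀ i : Fin 4, ∃ p, xs i ∈ U p y ∧ (p.length : ℤ) = ((val (phInf y) i.1 : ℕ) : ℤ) := by
    intro i
    have := (hR (xs i) y).1
    rw [KK_xs] at this
    exact this
  obtain ⟨N, hN⟩ := phInf_spec y
  -- the phase cannot stay zero
  have hph : phInf y ≠ 0 := by
    intro h0
    have hall : ∀ i : Fin 4, i.1 ≤ 2 → ∃ h : Bool, ∃ N, ∀ n, N ≤ n → FF n y i.1 h = true := by
      intro i hi
      obtain ⟨p, hp, hl⟩ := hex i
      rw [h0] at hl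
      have hv : val 0 i.1 = 3 := by
        obtain ⟨i, hi4⟩ := i
        simp only at hi
        interval_cases i <;> rfl
      rw [hv] at hl
      obtain ⟨a, b, d, rfl⟩ := length_three (by exact_mod_cast hl)
      exact ⟨a, FF_complete hy hc hp⟩
    obtain ⟨a0, N0, H0⟩ := hall 0 (by decide)
    obtain ⟨a1, N1, H1⟩ := hall 1 (by decide)
    obtain ⟨a2, N2, H2⟩ := hall 2 (by decide)
    set n := max (max N0 N1) (max N2 N) with hn
    have g0 := H0 n (by omega)
    have g1 := H1 n (by omega)
    have g2 := H2 n (by omega)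
    have hp1 : phase n y = 0 := by rw [hN n (by omega), h0]
    have hp2 : phase (n + 1) y = 0 := by rw [hN (n + 1) (by omega), h0]
    rw [phase_succ, hp1] at hp2
    have htr : trig n y = 0 := hp2
    have g0' : FF n y 0 a0 = true := g0
    have g1' : FF n y 1 a1 = true := g1
    have g2' : FF n y 2 a2 = true := g2
    unfold trig condA condB at htr
    revert htr
    cases a0 <;> cases a1 <;> cases a2 <;> simp only [g0', g1', g2', Bool.or_true, Bool.true_or,
      Bool.and_true, Bool.true_and, cond_true] <;>
      cases FF n y 0 false <;> cases FF n y 1 false <;> cases FF n y 2 false <;>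
      cases FF n y 0 true <;> cases FF n y 1 true <;> cases FF n y 2 true <;> simp
  -- the first stage at which the phase is nonzero
  have hex2 : ∃ n, phase (n + 1) y ≠ 0 ∧ phase n y = 0 := by
    classical
    have h1 : ∃ n, phase n y ≠ 0 := ⟨N, by rw [hN N (le_refl _)]; exact hph⟩
    obtain ⟨k, hk⟩ : ∃ k, Nat.find h1 = k + 1 := by
      refine Nat.exists_eq_succ_of_ne_zero ?_
      intro h0
      have := Nat.find_spec h1
      rw [h0] at this
      exact this rfl
    refine ⟨k, ?_, ?_⟩
    · rw [← hk]
      exact Nat.find_spec h1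
    · by_contra hne
      exact Nat.find_min h1 (by omega : k < Nat.find h1) hne
  obtain ⟨n, hn1, hn0⟩ := hex2
  have htr : trig n y = phInf y := by
    have h1 : phase (n + 1) y = trig n y := by
      rw [phase_succ, hn0]
      rfl
    rw [← h1, ← hN (max N (n + 1)) (le_max_left _ _)]
    exact (phase_stable hn1 _ (le_max_right _ _)).symm
  have sA : ∀ (i j a : Fin 4), i ≠ a → j ≠ a → condA n y i.1 j.1 = true →
      ∀ b : Bool, ∃ j : Fin 4, j ≠ a ∧ ∃ c d, xs j ∈ U [b, c, d] y := by
    intro i j a hi hj hA b
    unfold condA at hA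
    rw [Bool.and_eq_true, Bool.or_eq_true, Bool.or_eq_true] at hA
    cases b
    · rcases hA.1 with h | h
      · exact ⟨i, hi, FF_sound hy hc h⟩
      · exact ⟨j, hj, FF_sound hy hc h⟩
    · rcases hA.2 with h | h
      · exact ⟨i, hi, FF_sound hy hc h⟩
      · exact ⟨j, hj, FF_sound hy hc h⟩
  unfold trig at htr
  cases h12 : condA n y 1 2
  · rw [h12, cond_false] at htr
    cases h02 : condA n y 0 2
    · rw [h02, cond_false] at htr
      cases h01 : condA n y 0 1
      · rw [h01, cond_false] at htr
        cases hB : condB n y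
        · rw [hB, cond_false] at htr
          exact hph htr.symm
        · rw [hB, cond_true] at htr
          have v0 := hex 0
          have v1 := hex 1
          have v3 := hex 3
          rw [← htr] at v0 v1 v3
          unfold condB at hB
          rw [Bool.or_eq_true, Bool.and_eq_true, Bool.and_eq_true, Bool.and_eq_true,
            Bool.and_eq_true] at hB
          rcases hB with ⟨⟨b0, b1⟩, b2⟩ | ⟨⟨b0, b1⟩, b2⟩
          · exact no_B hcompat (FF_sound hy hc (i := 0) b0) (FF_sound hy hc (i := 1) b1)
              (FF_sound hy hc (i := 2) b2) v0 v1 v3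
          · exact no_B hcompat (FF_sound hy hc (i := 0) b0) (FF_sound hy hc (i := 1) b1)
              (FF_sound hy hc (i := 2) b2) v0 v1 v3
      · rw [h01, cond_true] at htr
        have v := hex 2
        rw [← htr] at v
        exact no_one hcompat (sA 0 1 2 (by decide) (by decide) h01) v
    · rw [h02, cond_true] at htr
      have v := hex 1
      rw [← htr] at v
      exact no_one hcompat (sA 0 2 1 (by decide) (by decide) h02) v
  · rw [h12, cond_true] at htr
    have v := hex 0
    rw [← htr] at v
    exact no_one hcompat (sA 1 2 0 (by decide) (by decide) h12) v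

end Pool.Agent.Results.MP_6b7d8e_lc.NoExactRealisation
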